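import Mathlib
import Pool.Agent.Helper231_T2.Main

set_option autoImplicit false

/-! # Binary tag systems: reaching the empty word by steps on words of length at least `ν` is decidable

If a step acts on words of length at least `ν` only, the empty word can be produced only by a step whose production is
empty.  If one of the two productions is empty and the other one is `w`, the words of the iteration are, after the
initial word has been consumed, suffixes of powers of `w`; such a word is determined by its length, and the lengths
follow a map `G` of the integers that commutes with the translation by `|w|`, so that `G^[|w|] x = x + |w| * e`.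
Therefore the iteration stops within an explicit number of steps or never. -/

namespace Pool.Agent.H409_TG

open Pool.Agent.Helper231_T2

/-- one step as a function; words shorter than `ν` stay -/
def fs (ν : ℕ) (P : Bool → List Bool) (V : List Bool) : List Bool :=
  if ν ≤ V.length then (V ++ P (V.headD false)).drop ν else V

theorem fs_step {ν : ℕ} (hν : 0 < ν) (P : Bool → List Bool) (S : List Bool) (h : ν ≤ S.length) :
    Step ν P S (fs ν P S) := by
  refine ⟨h, ?_⟩
  cases S with
  | nil => simp at h; omega
  | cons a V =>
    refine ⟨a, V, rfl, ?_⟩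
    unfold fs
    rw [if_pos h]
    rfl

theorem step_fs {ν : ℕ} {P : Bool → List Bool} {S S' : List Bool} (h : Step ν P S S') : S' = fs ν P S := by
  obtain ⟨h1, a, V, rfl, rfl⟩ := h
  unfold fs
  rw [if_pos h1]
  rfl

theorem fs_short {ν : ℕ} {P : Bool → List Bool} {S : List Bool} (h : S.length < ν) : fs ν P S = S := by
  unfold fs
  rw [if_neg (by omega)]

theorem reaches_iff {ν : ℕ} (hν : 0 < ν) (P : Bool → List Bool) (S S' : List Bool) :
    Reaches ν P S S' ↔ ∃ m, (fs ν P)^[m] S = S' := by
  constructor
  · intro h
    induction h with
    | refl => exact ⟨0, rfl⟩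
    | tail _ h2 ih =>
      obtain ⟨m, rfl⟩ := ih
      exact ⟨m + 1, by rw [Function.iterate_succ_apply']; exact (step_fs h2).symm⟩
  · rintro ⟨m, rfl⟩
    induction m with
    | zero => exact Relation.ReflTransGen.refl
    | succ m ih =>
      rw [Function.iterate_succ_apply']
      by_cases h : ν ≤ ((fs ν P)^[m] S).length
      · exact ih.tail (fs_step hν P _ h)
      · rw [fs_short (by omega)]
        exact ih

/-- after a short word nothing happens -/
theorem stable {ν : ℕ} {P : Bool → List Bool} {S : List Bool} {t : ℕ} (h : ((fs ν P)^[t] S).length < ν) :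
    ∀ t', t ≤ t' → (fs ν P)^[t'] S = (fs ν P)^[t] S := by
  intro t' htt
  obtain ⟨d, rfl⟩ := Nat.exists_eq_add_of_le htt
  induction d with
  | zero => rfl
  | succ d ih =>
    rw [← Nat.add_assoc, Function.iterate_succ_apply', ih (by omega)]
    exact fs_short h

/-- two short words of the iteration are equal -/
theorem short_eq {ν : ℕ} {P : Bool → List Bool} {S : List Bool} {t t' : ℕ} (h : ((fs ν P)^[t] S).length < ν)
    (h' : ((fs ν P)^[t'] S).length < ν) : (fs ν P)^[t'] S = (fs ν P)^[t] S := by
  rcases le_total t t' with h1 | h1
  · exact stable h _ h1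
  · exact (stable h' _ h1).symm

/-- the power of a word -/
def pw (w : List Bool) (k : ℕ) : List Bool := (List.replicate k w).flatten

theorem pw_succ (w : List Bool) (k : ℕ) : pw w (k + 1) = w ++ pw w k := by
  simp [pw, List.replicate_succ]

theorem pw_length (w : List Bool) (k : ℕ) : (pw w k).length = k * w.length := by
  induction k with
  | zero => simp [pw]
  | succ k ih => rw [pw_succ, List.length_append, ih]; ring

theorem pw_snoc (w : List Bool) (k : ℕ) : pw w k ++ w = pw w (k + 1) := by
  induction k with
  | zero => simp [pw]
  | succ k ih => rw [pw_succ, List.append_assoc, ih, ← pw_succ]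

/-- the words of the iteration before the end -/
theorem shape {ν : ℕ} (hν : 0 < ν) (P : Bool → List Bool) (o : Bool) (hz : P (!o) = []) (S : List Bool) (t : ℕ) :
    ((fs ν P)^[t] S).length < ν ∨ ∃ k ≤ t, (fs ν P)^[t] S = (S ++ pw (P o) k).drop (ν * t) := by
  induction t with
  | zero => exact Or.inr ⟨0, le_refl _, by simp [pw]⟩
  | succ t ih =>
    rcases ih with h | ⟨k, hk, hV⟩
    · left
      rw [stable h _ (Nat.le_succ t)]
      exact h
    · by_cases hs : ((fs ν P)^[t] S).length < ν
      · left
        rw [stable hs _ (Nat.le_succ t)]
        exact hs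
      · right
        rw [Function.iterate_succ_apply']
        have hlen : ν * t + ν ≤ (S ++ pw (P o) k).length := by
          have h1 := hs
          rw [hV, List.length_drop] at h1
          omega
        unfold fs at *
        rw [if_pos (by omega)]
        rw [hV]
        generalize hb : ((S ++ pw (P o) k).drop (ν * t)).headD false = b
        have hPb : P b = [] ∨ P b = P o := by
          cases o <;> cases b <;> simp_all
        rcases hPb with h | h
        · refine ⟨k, by omega, ?_⟩
          rw [h, List.append_nil, List.drop_drop]
          congr 1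
        · refine ⟨k + 1, by omega, ?_⟩
          have e : (S ++ pw (P o) k ++ P o).drop (ν * t) = (S ++ pw (P o) k).drop (ν * t) ++ P o :=
            List.drop_append_of_le_length (by omega)
          rw [h, ← pw_snoc, ← List.append_assoc, show ν * (t + 1) = ν * t + ν by ring, ← List.drop_drop, e]

/-- the letter in front of a suffix of length `x` of a power of `w` -/
def lt (w : List Bool) (x : ℤ) : Bool := w.getD ((-x) % (w.length : ℤ)).toNat false

theorem getD_pw (w : List Bool) (k n : ℕ) (h : n < k * w.length) : (pw w k).getD n false = w.getD (n % w.length) false := by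
  induction k generalizing n with
  | zero => simp at h
  | succ k ih =>
    rw [pw_succ]
    by_cases hn : n < w.length
    · rw [List.getD_append _ _ _ _ hn, Nat.mod_eq_of_lt hn]
    · rw [List.getD_append_right _ _ _ _ (by omega)]
      rw [ih (n - w.length) (by rw [Nat.succ_mul] at h; omega)]
      rw [← Nat.mod_eq_sub_mod (by omega)]

theorem head_drop (l : List Bool) (n : ℕ) : (l.drop n).headD false = l.getD n false := by
  rw [List.headD_eq_head?_getD, List.head?_drop, List.getD_eq_getElem?_getD]

theorem head_suffix (w : List Bool) (k n : ℕ) (h : n < k * w.length) :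
    ((pw w k).drop n).headD false = lt w (((pw w k).drop n).length : ℤ) := by
  rw [head_drop, getD_pw _ _ _ h, List.length_drop, pw_length]
  unfold lt
  congr 1
  have h0 : 0 < w.length := by
    rcases Nat.eq_zero_or_pos w.length with h1 | h1
    · rw [h1] at h; simp at h
    · exact h1
  rw [Nat.cast_sub (by omega)]
  have : (-(((k * w.length : ℕ) : ℤ) - (n : ℤ))) % (w.length : ℤ) = (n : ℤ) % (w.length : ℤ) := by
    push_cast
    rw [neg_sub, sub_eq_add_neg, ← neg_mul, Int.add_mul_emod_self_right]
  rw [this]
  norm_cast

/-- the lengths follow this map -/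
def G (ν : ℕ) (w : List Bool) (o : Bool) (x : ℤ) : ℤ := x - ν + if lt w x = o then (w.length : ℤ) else 0

theorem lt_add (w : List Bool) (x e : ℤ) : lt w (x + w.length * e) = lt w x := by
  unfold lt
  congr 2
  rw [show -(x + (w.length : ℤ) * e) = -x + (w.length : ℤ) * (-e) by ring, Int.add_mul_emod_self_left]

theorem G_add (ν : ℕ) (w : List Bool) (o : Bool) (x e : ℤ) : G ν w o (x + w.length * e) = G ν w o x + w.length * e := by
  unfold G
  rw [lt_add]
  ring

theorem Gi_add (ν : ℕ) (w : List Bool) (o : Bool) (i : ℕ) (x e : ℤ) :
    (G ν w o)^[i] (x + w.length * e) = (G ν w o)^[i] x + w.length * e := by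
  induction i with
  | zero => rfl
  | succ i ih => rw [Function.iterate_succ_apply', ih, G_add, Function.iterate_succ_apply']

theorem Gi_mod (ν : ℕ) (w : List Bool) (o : Bool) (i : ℕ) (x : ℤ) :
    ∃ e : ℤ, (G ν w o)^[i] x = x - ν * i + w.length * e := by
  induction i with
  | zero => exact ⟨0, by simp⟩
  | succ i ih =>
    obtain ⟨e, he⟩ := ih
    rw [Function.iterate_succ_apply', he]
    unfold G
    split_ifs
    · exact ⟨e + 1, by push_cast; ring⟩
    · exact ⟨e, by push_cast; ring⟩

theorem Gp (ν : ℕ) (w : List Bool) (o : Bool) (x : ℤ) : ∃ e : ℤ, (G ν w o)^[w.length] x = x + w.length * e := by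
  obtain ⟨e, he⟩ := Gi_mod ν w o w.length x
  exact ⟨e - ν, by rw [he]; ring⟩

theorem Gpj (ν : ℕ) (w : List Bool) (o : Bool) (x e : ℤ) (he : (G ν w o)^[w.length] x = x + w.length * e) (j : ℕ) :
    (G ν w o)^[w.length * j] x = x + w.length * (e * j) := by
  induction j with
  | zero => simp
  | succ j ih =>
    rw [Nat.mul_succ, Nat.add_comm, Function.iterate_add_apply, ih, Gi_add, he]
    push_cast
    ring

/-- the map goes below `ν` soon or never -/
theorem G_bound {ν : ℕ} (hν : 0 < ν) (w : List Bool) (hw : w ≠ []) (o : Bool) (x : ℕ)
    (h : ∃ i, (G ν w o)^[i] (x : ℤ) < ν) : ∃ i ≤ w.length * (x + 1), (G ν w o)^[i] (x : ℤ) < ν := by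
  have hp : 0 < w.length := List.length_pos_of_ne_nil hw
  obtain ⟨e, he⟩ := Gp ν w o x
  rcases le_or_gt 0 e with h0 | h0
  · obtain ⟨i, hi⟩ := h
    refine ⟨i % w.length, ?_, ?_⟩
    · have := Nat.mod_lt i hp
      nlinarith
    · have h1 : (G ν w o)^[i] (x : ℤ) = (G ν w o)^[i % w.length] x + w.length * (e * (i / w.length : ℕ)) := by
        conv_lhs => rw [← Nat.mod_add_div i w.length]
        rw [Function.iterate_add_apply, Gpj ν w o x e he, Gi_add]
      have h2 : 0 ≤ (w.length : ℤ) * (e * (i / w.length : ℕ)) := by positivity
      omega
  · refine ⟨w.length * x, by gcongr; omega, ?_⟩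
    rw [Gpj ν w o x e he]
    have h1 : (w.length : ℤ) * (e * x) ≤ -x := by
      have h3 : (1 : ℤ) ≤ w.length := by exact_mod_cast hp
      have h4 : e ≤ -1 := by omega
      have h5 : (0 : ℤ) ≤ x := by positivity
      nlinarith [mul_nonneg h5 (sub_nonneg.2 h3), mul_nonneg h5 (by linarith : (0 : ℤ) ≤ -1 - e),
        mul_nonneg (mul_nonneg h5 (sub_nonneg.2 h3)) (by linarith : (0 : ℤ) ≤ -1 - e)]
    have : (0 : ℤ) < ν := by exact_mod_cast hν
    omega

/-- the lengths of the words follow `G` once the initial word is consumed -/
theorem follow {ν : ℕ} (hν : 0 < ν) (P : Bool → List Bool) (o : Bool) (hz : P (!o) = []) (S : List Bool) (t0 : ℕ)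
    (ht0 : S.length ≤ t0) (s : ℕ)
    (h : ∀ i < s, (ν : ℤ) ≤ (G ν (P o) o)^[i] (((fs ν P)^[t0] S).length : ℤ)) :
    (((fs ν P)^[t0 + s] S).length : ℤ) = (G ν (P o) o)^[s] (((fs ν P)^[t0] S).length : ℤ) := by
  induction s with
  | zero => rfl
  | succ s ih =>
    have ih' := ih (fun i hi => h i (by omega))
    have h1 := h s (by omega)
    rw [← ih'] at h1
    have h2 : ν ≤ ((fs ν P)^[t0 + s] S).length := by exact_mod_cast h1
    rw [Function.iterate_succ_apply', ← ih', ← Nat.add_assoc, Function.iterate_succ_apply']
    rcases shape hν P o hz S (t0 + s) with h3 | ⟨k, _, hk⟩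
    · omega
    · generalize hV : (fs ν P)^[t0 + s] S = V at *
      have hle : S.length ≤ ν * (t0 + s) := by nlinarith
      rw [List.drop_append, List.drop_eq_nil_of_le hle, List.nil_append] at hk
      have hlt : ν * (t0 + s) - S.length < k * (P o).length := by
        rw [hk, List.length_drop, pw_length] at h2
        omega
      have hh := head_suffix (P o) k _ hlt
      rw [← hk] at hh
      unfold fs G
      rw [if_pos h2, hh, List.length_drop, List.length_append]
      by_cases hb : lt (P o) (V.length : ℤ) = o
      · rw [if_pos hb, hb]
        push_cast [Nat.cast_sub (show ν ≤ V.length + (P o).length by omega)]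
        ring
      · have hb' : lt (P o) (V.length : ℤ) = !o := by
          revert hb
          generalize lt (P o) (V.length : ℤ) = c
          cases o <;> cases c <;> simp
        rw [if_neg hb, hb', hz]
        simp only [List.length_nil, Nat.add_zero]
        push_cast [Nat.cast_sub h2]
        ring

/-- the number of steps after which everything is known -/
def Bd (p s : ℕ) : ℕ := s + p * (s + s * p + 1)

theorem bounded {ν : ℕ} (hν : 0 < ν) (P : Bool → List Bool) (o : Bool) (hz : P (!o) = []) (S : List Bool)
    (B : ℕ) (hB : Bd (P o).length S.length ≤ B) (h : ∃ m, (fs ν P)^[m] S = []) : (fs ν P)^[B] S = [] := by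
  obtain ⟨m, hm⟩ := h
  have hms : ((fs ν P)^[m] S).length < ν := by rw [hm]; simpa using hν
  -- it is enough to find a short word at a time at most `B`
  have key : (∃ t ≤ B, ((fs ν P)^[t] S).length < ν) → (fs ν P)^[B] S = [] := by
    rintro ⟨t, ht, hs⟩
    rw [stable hs _ ht, ← hm]
    exact (short_eq hs hms).symm
  apply key
  by_cases h0 : ((fs ν P)^[S.length] S).length < ν
  · exact ⟨S.length, by unfold Bd at hB; omega, h0⟩
  · rcases shape hν P o hz S S.length with h1 | ⟨k, hk, hV⟩
    · exact absurd h1 h0
    · have hx : ((fs ν P)^[S.length] S).length ≤ S.length + S.length * (P o).length := by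
        rw [hV, List.length_drop, List.length_append, pw_length]
        have : k * (P o).length ≤ S.length * (P o).length := Nat.mul_le_mul_right _ hk
        omega
      have hw : P o ≠ [] := by
        intro hw
        apply h0
        rw [hV, List.length_drop, List.length_append, pw_length, hw]
        simp only [List.length_nil, Nat.mul_zero, Nat.add_zero]
        have : S.length ≤ ν * S.length := by nlinarith
        omega
      have hex : ∃ i, (G ν (P o) o)^[i] (((fs ν P)^[S.length] S).length : ℤ) < ν := by
        by_contra hno
        push Not at hno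
        rcases le_total m S.length with hmm | hmm
        · apply h0
          rw [stable hms _ hmm]
          exact hms
        · obtain ⟨d, rfl⟩ := Nat.exists_eq_add_of_le hmm
          have h2 := follow hν P o hz S S.length le_rfl d (fun i _ => hno i)
          have h3 := hno d
          rw [← h2] at h3
          have : ν ≤ ((fs ν P)^[S.length + d] S).length := by exact_mod_cast h3
          omega
      obtain ⟨i, hi, hi2⟩ := G_bound hν (P o) hw o _ hex
      classical
      have hf := Nat.find_spec (⟨i, hi2⟩ : ∃ i, (G ν (P o) o)^[i] (((fs ν P)^[S.length] S).length : ℤ) < ν)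
      have hmin := fun j (hj : j < Nat.find (⟨i, hi2⟩ : ∃ i, (G ν (P o) o)^[i] (((fs ν P)^[S.length] S).length : ℤ) < ν)) =>
        Nat.find_min _ hj
      have hle := Nat.find_min' (⟨i, hi2⟩ : ∃ i, (G ν (P o) o)^[i] (((fs ν P)^[S.length] S).length : ℤ) < ν) hi2
      set q := Nat.find (⟨i, hi2⟩ : ∃ i, (G ν (P o) o)^[i] (((fs ν P)^[S.length] S).length : ℤ) < ν) with hq
      have h4 := follow hν P o hz S S.length le_rfl q (fun j hj => not_lt.1 (hmin j hj))
      refine ⟨S.length + q, ?_, ?_⟩
      · have : (P o).length * (((fs ν P)^[S.length] S).length + 1) ≤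
            (P o).length * (S.length + S.length * (P o).length + 1) := by gcongr
        unfold Bd at hB
        omega
      · rw [← h4] at hf
        exact_mod_cast hf

/-- if both productions are nonempty, the empty word is reached from the empty word only -/
theorem nonempty_case {ν : ℕ} (P : Bool → List Bool) (h0 : ∀ a, P a ≠ []) (S : List Bool) (m : ℕ)
    (h : (fs ν P)^[m] S = []) : S = [] := by
  induction m with
  | zero => exact h
  | succ m ih =>
    rw [Function.iterate_succ_apply'] at h
    by_cases hs : ν ≤ ((fs ν P)^[m] S).length
    · exfalso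
      unfold fs at h hs
      rw [if_pos hs, List.drop_eq_nil_iff, List.length_append] at h
      have := List.length_pos_of_ne_nil (h0 (((fs ν P)^[m] S).headD false))
      unfold fs at this
      omega
    · rw [fs_short (by omega)] at h
      exact ih h

theorem reaches_nil_iff {ν : ℕ} (hν : 0 < ν) (P : Bool → List Bool) (S : List Bool) :
    Reaches ν P S [] ↔ (fs ν P)^[Bd ((P false).length + (P true).length) S.length] S = [] := by
  rw [reaches_iff hν]
  constructor
  · intro h
    by_cases h0 : ∀ a, P a ≠ []
    · obtain ⟨m, hm⟩ := h
      have := nonempty_case P h0 S m hm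
      subst this
      have hst : ∀ n, (fs ν P)^[n] [] = [] := fun n => by
        have := stable (ν := ν) (P := P) (S := []) (t := 0) (by simpa using hν) n (Nat.zero_le n)
        simpa using this
      exact hst _
    · push Not at h0
      obtain ⟨a, ha⟩ := h0
      apply bounded hν P (!a) (by simpa using ha) S _ _ h
      have : (P !a).length = (P false).length + (P true).length := by
        cases a <;> simp [ha]
      rw [this]
  · intro h
    exact ⟨_, h⟩

theorem prim_drop (ν : ℕ) : Primrec (fun l : List Bool => l.drop ν) := by
  induction ν with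
  | zero => exact Primrec.id.of_eq fun l => by simp
  | succ ν ih =>
    have : (fun l : List Bool => l.drop (ν + 1)) = fun l : List Bool => (l.drop ν).tail := by
      funext l
      rw [List.tail_drop]
    rw [this]
    exact Primrec.list_tail.comp ih

theorem prim_fs (ν : ℕ) : Primrec₂ (fun (x : (List Bool × List Bool) × List Bool) (V : List Bool) =>
    fs ν (fun a => if a then x.1.2 else x.1.1) V) := by
  have hV : Primrec (fun y : ((List Bool × List Bool) × List Bool) × List Bool => y.2) := Primrec.snd
  have hx1 : Primrec (fun y : ((List Bool × List Bool) × List Bool) × List Bool => y.1.1.1) :=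
    Primrec.fst.comp (Primrec.fst.comp Primrec.fst)
  have hx2 : Primrec (fun y : ((List Bool × List Bool) × List Bool) × List Bool => y.1.1.2) :=
    Primrec.snd.comp (Primrec.fst.comp Primrec.fst)
  have hhd : Primrec (fun y : ((List Bool × List Bool) × List Bool) × List Bool => y.2.headD false) := by
    have h1 : Primrec (fun y : ((List Bool × List Bool) × List Bool) × List Bool => y.2.head?.getD false) :=
      Primrec.option_getD.comp (Primrec.list_head?.comp hV) (Primrec.const false)
    refine h1.of_eq fun y => ?_
    rw [List.headD_eq_head?_getD]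
  have hc : PrimrecPred (fun y : ((List Bool × List Bool) × List Bool) × List Bool => y.2.headD false = true) :=
    Primrec.eq.comp hhd (Primrec.const true)
  have hp : Primrec (fun y : ((List Bool × List Bool) × List Bool) × List Bool =>
      if y.2.headD false = true then y.1.1.2 else y.1.1.1) := Primrec.ite hc hx2 hx1
  have hl : PrimrecPred (fun y : ((List Bool × List Bool) × List Bool) × List Bool => ν ≤ y.2.length) :=
    Primrec.nat_le.comp (Primrec.const ν) (Primrec.list_length.comp hV)
  exact Primrec.ite hl ((prim_drop ν).comp (Primrec.list_append.comp hV hp)) hV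

/-- **Reaching the empty word by steps on words of length at least `ν` is decidable** for the tag systems with two
symbols and deletion number `ν`, uniformly in the two productions and the initial word. -/
theorem literal (ν : ℕ) (hν : 0 < ν) :
    ComputablePred (fun x : (List Bool × List Bool) × List Bool =>
      Reaches ν (fun a => if a then x.1.2 else x.1.1) x.2 []) := by
  have hB : Primrec (fun x : (List Bool × List Bool) × List Bool =>
      Bd (x.1.1.length + x.1.2.length) x.2.length) := by
    have h1 : Primrec (fun x : (List Bool × List Bool) × List Bool => x.1.1.length + x.1.2.length) :=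
      Primrec.nat_add.comp (Primrec.list_length.comp (Primrec.fst.comp Primrec.fst))
        (Primrec.list_length.comp (Primrec.snd.comp Primrec.fst))
    have h2 : Primrec (fun x : (List Bool × List Bool) × List Bool => x.2.length) :=
      Primrec.list_length.comp Primrec.snd
    exact Primrec.nat_add.comp h2 (Primrec.nat_mul.comp h1
      (Primrec.succ.comp (Primrec.nat_add.comp h2 (Primrec.nat_mul.comp h2 h1))))
  have hit : Primrec (fun x : (List Bool × List Bool) × List Bool =>
      (fs ν (fun a => if a then x.1.2 else x.1.1))^[Bd (x.1.1.length + x.1.2.length) x.2.length] x.2) :=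
    Primrec.nat_iterate hB Primrec.snd (prim_fs ν)
  have hpr : PrimrecPred (fun x : (List Bool × List Bool) × List Bool =>
      (fs ν (fun a => if a then x.1.2 else x.1.1))^[Bd (x.1.1.length + x.1.2.length) x.2.length] x.2 = []) :=
    Primrec.eq.comp hit (Primrec.const [])
  have heq : (fun x : (List Bool × List Bool) × List Bool =>
      Reaches ν (fun a => if a then x.1.2 else x.1.1) x.2 []) = fun x =>
      (fs ν (fun a => if a then x.1.2 else x.1.1))^[Bd (x.1.1.length + x.1.2.length) x.2.length] x.2 = [] := by
    funext x
    apply propext
    rw [reaches_nil_iff hν]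
    simp
  rw [heq]
  exact hpr.computablePred

end Pool.Agent.H409_TG
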